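import Mathlib

/-!
Completeness of topological vector spaces over filters on `ℕ`.
-/

set_option autoImplicit false

namespace Q93.Ultra

open Topology

/-- A free filter on `ℕ`: a proper filter which contains every cofinite set. -/
def IsFree (F : Filter ℕ) : Prop := F.NeBot ∧ ∀ A : Set ℕ, Aᶜ.Finite → A ∈ F

/-- The sequence `x` is Cauchy over `F`: for every neighbourhood `U` of `0` there is `B ∈ F` with
`x(B) - x(B) ⊆ U`. -/
def CauchyOver {X : Type} [AddCommGroup X] [TopologicalSpace X] (F : Filter ℕ) (x : ℕ → X) :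
    Prop :=
  ∀ U ∈ 𝓝 (0 : X), ∃ B ∈ F, ∀ m ∈ B, ∀ n ∈ B, x m - x n ∈ U

/-- The sequence `x` converges to `y` over `F`: for every neighbourhood `V` of `y` there is `A ∈ F`
with `x(A) ⊆ V`. -/
def ConvergesOver {X : Type} [TopologicalSpace X] (F : Filter ℕ) (x : ℕ → X) (y : X) : Prop :=
  ∀ V ∈ 𝓝 y, ∃ A ∈ F, ∀ n ∈ A, x n ∈ V

/-- `X` is complete over `F`: every sequence in `X` that is Cauchy over `F` converges over `F` to
a point of `X`. -/
def CompleteOver (F : Filter ℕ) (X : Type) [AddCommGroup X] [TopologicalSpace X] : Prop :=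
  ∀ x : ℕ → X, CauchyOver F x → ∃ y, ConvergesOver F x y

/-- `X` is countably complete: it is complete over every free filter on `ℕ`. -/
def CountablyComplete (X : Type) [AddCommGroup X] [TopologicalSpace X] : Prop :=
  ∀ F : Filter ℕ, IsFree F → CompleteOver F X

end Q93.Ultra
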