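import Mathlib

/-!
There are more than continuum many free ultrafilters on `ℕ`.
-/

set_option autoImplicit false

namespace Q93.Ultra

open Filter Topology Cardinal

/-- The countable set of pairs (finite set, finite family of finite sets). -/
abbrev D : Type := Finset ℕ × Finset (Finset ℕ)

/-- enumeration of `D` -/
noncomputable def enum : ℕ ≃ D := (Denumerable.eqv D).symm

open Classical in
/-- The trace of `x` on a finite set. -/
noncomputable def tr (x : Set ℕ) (F : Finset ℕ) : Finset ℕ := F.filter (· ∈ x)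

/-- An independent family of subsets of `ℕ` indexed by the subsets of `ℕ`. -/
def A (x : Set ℕ) : Set ℕ := {n | tr x (enum n).1 ∈ (enum n).2}

open Classical in
/-- The set `A x` or its complement. -/
noncomputable def B (S : Set (Set ℕ)) (x : Set ℕ) : Set ℕ := if x ∈ S then A x else (A x)ᶜ

/-- finitely many sets of naturals are separated by a finite set -/
lemma exists_sep (t : Finset (Set ℕ)) : ∃ F : Finset ℕ, ∀ G : Finset ℕ, F ⊆ G →
    ∀ x ∈ t, ∀ y ∈ t, tr x G = tr y G → x = y := by
  classical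
  have h : ∀ x y : Set ℕ, ∃ k : ℕ, x ≠ y → ¬ (k ∈ x ↔ k ∈ y) := by
    intro x y
    by_cases hxy : x = y
    · exact ⟨0, fun h => absurd hxy h⟩
    · by_contra hcon
      push Not at hcon
      apply hxy
      ext k
      exact (hcon k).2
  choose k hk using h
  refine ⟨(t ×ˢ t).image fun p => k p.1 p.2, fun G hG x hx y hy hxy => ?_⟩
  by_contra hne
  apply hk x y hne
  have hmem : k x y ∈ G := hG (Finset.mem_image.2 ⟨(x, y), Finset.mem_product.2 ⟨hx, hy⟩, rfl⟩)
  have h1 : k x y ∈ tr x G ↔ k x y ∈ tr y G := by rw [hxy]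
  simpa [tr, hmem] using h1

lemma inter_infinite (S : Set (Set ℕ)) (t : Finset (Set ℕ)) :
    (⋂ x ∈ t, B S x).Infinite := by
  classical
  obtain ⟨F, hF⟩ := exists_sep t
  -- for every `m` the pair `(F ∪ {m}, traces)` works
  let P : ℕ → D := fun m => (F ∪ {m}, (t.filter (· ∈ S)).image fun x => tr x (F ∪ {m}))
  have hP : ∀ m, enum.symm (P m) ∈ ⋂ x ∈ t, B S x := by
    intro m
    rw [Set.mem_iInter₂]
    intro x hx
    unfold B
    split_ifs with hxS
    · simp only [A, Set.mem_ofPred_eq, Equiv.apply_symm_apply, P]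
      exact Finset.mem_image.2 ⟨x, Finset.mem_filter.2 ⟨hx, hxS⟩, rfl⟩
    · simp only [A, Set.mem_compl_iff, Set.mem_ofPred_eq, Equiv.apply_symm_apply, P]
      intro hmem
      obtain ⟨y, hy, hyx⟩ := Finset.mem_image.1 hmem
      rw [Finset.mem_filter] at hy
      have := hF (F ∪ {m}) Finset.subset_union_left y hy.1 x hx hyx
      exact hxS (this ▸ hy.2)
  -- infinitely many different pairs
  have hinf : (Set.range P).Infinite := by
    intro hfin
    have h1 : (⋃ d ∈ Set.range P, ((d.1 : Finset ℕ) : Set ℕ)).Finite :=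
      hfin.biUnion fun d _ => d.1.finite_toSet
    have h2 : (Set.univ : Set ℕ) ⊆ ⋃ d ∈ Set.range P, ((d.1 : Finset ℕ) : Set ℕ) := by
      intro m _
      rw [Set.mem_iUnion₂]
      exact ⟨P m, ⟨m, rfl⟩, by simp [P]⟩
    exact Set.infinite_univ (h1.subset h2)
  have himg : (enum.symm '' Set.range P).Infinite := hinf.image enum.symm.injective.injOn
  refine himg.mono ?_
  rintro _ ⟨_, ⟨m, rfl⟩, rfl⟩
  exact hP m

/-- the filter attached to `S` -/
noncomputable def FS (S : Set (Set ℕ)) : Filter ℕ := cofinite ⊓ ⨅ x, 𝓟 (B S x)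

instance (S : Set (Set ℕ)) : (FS S).NeBot := by
  rw [← Filter.forall_mem_nonempty_iff_neBot]
  intro s hs
  unfold FS at hs
  rw [Filter.mem_inf_iff] at hs
  obtain ⟨t1, ht1, t2, ht2, rfl⟩ := hs
  rw [(hasBasis_iInf_principal_finite _).mem_iff] at ht2
  obtain ⟨u, hu, hsub⟩ := ht2
  have h := inter_infinite S hu.toFinset
  rw [mem_cofinite] at ht1
  obtain ⟨n, hn, hn'⟩ := (h.sdiff ht1).nonempty
  refine ⟨n, not_not.1 hn', hsub ?_⟩
  simpa using hn

/-- A free ultrafilter attached to `S`. -/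
noncomputable def US (S : Set (Set ℕ)) : Ultrafilter ℕ := Ultrafilter.of (FS S)

lemma US_free (S : Set (Set ℕ)) : (US S : Filter ℕ) ≤ cofinite :=
  (Ultrafilter.of_le (FS S)).trans inf_le_left

lemma US_mem (S : Set (Set ℕ)) (x : Set ℕ) : B S x ∈ US S := by
  have h1 : (US S : Filter ℕ) ≤ 𝓟 (B S x) :=
    (Ultrafilter.of_le (FS S)).trans (inf_le_right.trans (iInf_le _ x))
  exact h1 (mem_principal_self _)

lemma US_injective : Function.Injective US := by
  intro S S' h
  ext x
  have key : ∀ T T' : Set (Set ℕ), US T = US T' → x ∈ T → x ∈ T' := by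
    intro T T' hT hx
    by_contra hx'
    have h1 := US_mem T x
    have h2 := US_mem T' x
    rw [← hT] at h2
    rw [B, if_pos hx] at h1
    rw [B, if_neg hx'] at h2
    exact (Ultrafilter.compl_mem_iff_notMem.1 h2) h1
  exact ⟨key S S' h, key S' S h.symm⟩

/-- A set of subsets of `ℕ` (as large as `2 ^ 𝔠`) does not inject into a set of size `≤ 𝔠`. -/
lemma exists_not_mem {α : Type} (X : Set α) (hX : #X ≤ 𝔠) (f : Set (Set ℕ) → α)
    (hf : Function.Injective f) : ∃ S, f S ∉ X := by
  by_contra hcon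
  push Not at hcon
  have h1 : #(Set (Set ℕ)) ≤ #X :=
    Cardinal.mk_le_of_injective (f := fun S => (⟨f S, hcon S⟩ : X)) fun S S' h => hf (by
      simpa using h)
  have h2 : #(Set (Set ℕ)) = 2 ^ 𝔠 := by
    rw [Cardinal.mk_set, Cardinal.mk_set, Cardinal.mk_nat, Cardinal.two_power_aleph0]
  have h3 : 𝔠 < 2 ^ 𝔠 := Cardinal.cantor 𝔠
  rw [h2] at h1
  exact absurd (h1.trans hX) (not_le.2 h3)

end Q93.Ultra
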