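import Pool.Agent.Q93.Ultra.Defs
import Pool.Agent.Q93.Ultra.Indep

/-!
For every free ultrafilter `U` a subspace of `𝕜 ^ 𝒫(ℕ)` of size at most continuum, which contains
the evaluations and is closed under `U`-limits.
-/

set_option autoImplicit false

namespace Q93.Ultra

open Filter Topology Cardinal

variable (𝕜 : Type) [RCLike 𝕜]

/-- The product space `𝕜 ^ 𝒫(ℕ)`. -/
abbrev W : Type := Set ℕ → 𝕜

open Classical in
/-- the evaluation at `n` -/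
noncomputable def δ (n : ℕ) : W 𝕜 := fun A => if n ∈ A then 1 else 0

open Classical in
/-- the limit of the evaluations over an ultrafilter -/
noncomputable def lam (V : Ultrafilter ℕ) : W 𝕜 := fun A => if A ∈ V then 1 else 0

lemma lam_injective : Function.Injective (lam 𝕜) := by
  classical
  intro V V' h
  ext A
  have := congrFun h A
  simp only [lam] at this
  by_cases h1 : A ∈ V <;> by_cases h2 : A ∈ V' <;> simp_all

lemma tendsto_δ (V : Ultrafilter ℕ) : Tendsto (δ 𝕜) V (𝓝 (lam 𝕜 V)) := by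
  classical
  rw [tendsto_pi_nhds]
  intro A
  by_cases h : A ∈ V
  · refine tendsto_nhds_of_eventually_eq ?_
    filter_upwards [h] with n hn
    simp [δ, lam, h, hn]
  · refine tendsto_nhds_of_eventually_eq ?_
    filter_upwards [Ultrafilter.compl_mem_iff_notMem.2 h] with n hn
    have hn' : n ∉ A := hn
    simp [δ, lam, h, hn']

/-- labels of the terms: leaf `n`, multiplication by `c`, sum, limit -/
abbrev Lab : Type := ℕ ⊕ 𝕜 ⊕ Bool

/-- arities -/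
def ar : Lab 𝕜 → Type
  | Sum.inl _ => Empty
  | Sum.inr (Sum.inl _) => Unit
  | Sum.inr (Sum.inr true) => Bool
  | Sum.inr (Sum.inr false) => ℕ

/-- the value of a node -/
noncomputable def node (U : Ultrafilter ℕ) : (Σ a : Lab 𝕜, ar 𝕜 a → W 𝕜) → W 𝕜
  | ⟨Sum.inl n, _⟩ => δ 𝕜 n
  | ⟨Sum.inr (Sum.inl c), f⟩ => c • f ()
  | ⟨Sum.inr (Sum.inr true), f⟩ => f true + f false
  | ⟨Sum.inr (Sum.inr false), f⟩ => limUnder (U : Filter ℕ) f

/-- the value of a term -/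
noncomputable def val (U : Ultrafilter ℕ) : WType (ar 𝕜) → W 𝕜 := WType.elim (W 𝕜) (node 𝕜 U)

lemma card_WType : #(WType (ar 𝕜)) ≤ 𝔠 := by
  have hK : #𝕜 ≤ 𝔠 := by
    have h1 : #𝕜 ≤ #(ℝ × ℝ) := by
      refine Cardinal.mk_le_of_injective (f := fun z : 𝕜 => (RCLike.re z, RCLike.im z)) ?_
      intro z w h
      rw [Prod.ext_iff] at h
      exact RCLike.ext h.1 h.2
    refine h1.trans ?_
    rw [Cardinal.mk_prod, Cardinal.mk_real]
    simp
  have hL : #(Lab 𝕜) ≤ 𝔠 := by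
    have h1 : #(Lab 𝕜) = ℵ₀ + (#𝕜 + #Bool) := by
      simp [Lab]
    rw [h1]
    have h2 : #Bool ≤ 𝔠 := (Cardinal.lt_aleph0_of_finite Bool).le.trans Cardinal.aleph0_le_continuum
    calc ℵ₀ + (#𝕜 + #Bool) ≤ 𝔠 + (𝔠 + 𝔠) := by
          gcongr
          exact Cardinal.aleph0_le_continuum
      _ = 𝔠 := by simp
  apply WType.cardinalMk_le_of_le
  have hpow : ∀ a : Lab 𝕜, 𝔠 ^ #(ar 𝕜 a) ≤ 𝔠 := by
    intro a
    have h1 : #(ar 𝕜 a) ≤ ℵ₀ := by
      rcases a with n | c | b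
      · exact Cardinal.mk_le_aleph0_iff.2 (inferInstanceAs (Countable Empty))
      · exact Cardinal.mk_le_aleph0_iff.2 (inferInstanceAs (Countable Unit))
      · cases b
        · exact Cardinal.mk_le_aleph0_iff.2 (inferInstanceAs (Countable ℕ))
        · exact Cardinal.mk_le_aleph0_iff.2 (inferInstanceAs (Countable Bool))
    calc 𝔠 ^ #(ar 𝕜 a) ≤ 𝔠 ^ ℵ₀ :=
          Cardinal.power_le_power_left Cardinal.continuum_ne_zero h1
      _ = 𝔠 := by simp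
  calc (Cardinal.sum fun a : Lab 𝕜 => 𝔠 ^ #(ar 𝕜 a)) ≤ Cardinal.sum fun _ : Lab 𝕜 => 𝔠 :=
        Cardinal.sum_le_sum _ _ hpow
    _ = #(Lab 𝕜) * 𝔠 := by simp
    _ ≤ 𝔠 * 𝔠 := by gcongr
    _ = 𝔠 := by simp

/-- The subspace. -/
noncomputable def XU (U : Ultrafilter ℕ) : Submodule 𝕜 (W 𝕜) where
  carrier := Set.range (val 𝕜 U)
  add_mem' := by
    rintro _ _ ⟨a, rfl⟩ ⟨b, rfl⟩
    exact ⟨WType.mk (Sum.inr (Sum.inr true)) 
      (show Bool → WType (ar 𝕜) from fun i => cond i a b), rfl⟩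
  zero_mem' := by
    refine ⟨WType.mk (Sum.inr (Sum.inl 0)) (fun _ => WType.mk (Sum.inl 0) Empty.elim), ?_⟩
    change (0 : 𝕜) • _ = (0 : W 𝕜)
    exact zero_smul _ _
  smul_mem' := by
    rintro c _ ⟨a, rfl⟩
    exact ⟨WType.mk (Sum.inr (Sum.inl c)) (fun _ => a), rfl⟩

lemma card_XU (U : Ultrafilter ℕ) : #(XU 𝕜 U : Set (W 𝕜)) ≤ 𝔠 :=
  Cardinal.mk_range_le.trans (card_WType 𝕜)

lemma δ_mem (U : Ultrafilter ℕ) (n : ℕ) : δ 𝕜 n ∈ XU 𝕜 U :=
  ⟨WType.mk (Sum.inl n) Empty.elim, rfl⟩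

lemma lim_mem (U : Ultrafilter ℕ) {x : ℕ → W 𝕜} (hx : ∀ n, x n ∈ XU 𝕜 U) {y : W 𝕜}
    (h : Tendsto x U (𝓝 y)) : y ∈ XU 𝕜 U := by
  choose a ha using hx
  refine ⟨WType.mk (Sum.inr (Sum.inr false)) a, ?_⟩
  change limUnder (U : Filter ℕ) (fun n => val 𝕜 U (a n)) = y
  have : (fun n => val 𝕜 U (a n)) = x := funext ha
  rw [this]
  exact h.limUnder_eq

lemma cauchy_tendsto {F : Filter ℕ} [F.NeBot] {x : ℕ → W 𝕜} (h : CauchyOver F x) :
    ∃ y, Tendsto x F (𝓝 y) := by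
  have hC : Cauchy (F.map x) := by
    rw [cauchy_map_iff]
    refine ⟨inferInstance, ?_⟩
    rw [uniformity_eq_comap_nhds_zero (W 𝕜), tendsto_comap_iff]
    intro V hV
    obtain ⟨B, hB, hBV⟩ := h V hV
    rw [Filter.mem_map, Filter.mem_prod_same_iff]
    refine ⟨B, hB, ?_⟩
    rintro ⟨m, n⟩ ⟨hm, hn⟩
    exact hBV n hn m hm
  exact CompleteSpace.complete hC

theorem main (U : Ultrafilter ℕ) : CompleteOver (U : Filter ℕ) (XU 𝕜 U) ∧
    ¬ CountablyComplete (XU 𝕜 U) := by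
  constructor
  · intro x hx
    have h1 : CauchyOver (U : Filter ℕ) (fun n => (x n : W 𝕜)) := by
      intro V hV
      have hV' : ((↑) : XU 𝕜 U → W 𝕜) ⁻¹' V ∈ 𝓝 (0 : XU 𝕜 U) :=
        continuous_subtype_val.continuousAt.preimage_mem_nhds (by simpa using hV)
      obtain ⟨B, hB, hBV⟩ := hx _ hV'
      exact ⟨B, hB, fun m hm n hn => hBV m hm n hn⟩
    obtain ⟨y, hy⟩ := cauchy_tendsto 𝕜 h1
    have hyX : y ∈ XU 𝕜 U := lim_mem 𝕜 U (fun n => (x n).2) hy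
    refine ⟨⟨y, hyX⟩, fun V hV => ?_⟩
    have h2 : Tendsto x (U : Filter ℕ) (𝓝 (⟨y, hyX⟩ : XU 𝕜 U)) := tendsto_subtype_rng.2 hy
    exact ⟨x ⁻¹' V, h2 hV, fun n hn => hn⟩
  · intro hcc
    obtain ⟨S, hS⟩ := exists_not_mem (XU 𝕜 U : Set (W 𝕜)) (card_XU 𝕜 U)
      (fun S => lam 𝕜 (US S)) ((lam_injective 𝕜).comp US_injective)
    have hfree : IsFree (US S : Filter ℕ) :=
      ⟨inferInstance, fun A hA => US_free S (mem_cofinite.2 hA)⟩
    have hlim := tendsto_δ 𝕜 (US S)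
    let x : ℕ → XU 𝕜 U := fun n => ⟨δ 𝕜 n, δ_mem 𝕜 U n⟩
    have hC : CauchyOver (US S : Filter ℕ) x := by
      intro V hV
      rw [nhds_subtype_eq_comap, Filter.mem_comap] at hV
      obtain ⟨V', hV', hsub⟩ := hV
      have h1 : Tendsto (fun p : ℕ × ℕ => δ 𝕜 p.1 - δ 𝕜 p.2)
          ((US S : Filter ℕ) ×ˢ (US S : Filter ℕ)) (𝓝 (lam 𝕜 (US S) - lam 𝕜 (US S))) :=
        (hlim.comp tendsto_fst).sub (hlim.comp tendsto_snd)
      rw [sub_self] at h1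
      have h2 := h1 hV'
      rw [Filter.mem_map, Filter.mem_prod_same_iff] at h2
      obtain ⟨B, hB, hB'⟩ := h2
      refine ⟨B, hB, fun m hm n hn => hsub ?_⟩
      exact hB' (Set.mk_mem_prod hm hn)
    obtain ⟨y, hy⟩ := hcc _ hfree x hC
    have h3 : Tendsto (δ 𝕜) (US S : Filter ℕ) (𝓝 (y : W 𝕜)) := by
      intro V hV
      have hV' : ((↑) : XU 𝕜 U → W 𝕜) ⁻¹' V ∈ 𝓝 y :=
        continuous_subtype_val.continuousAt.preimage_mem_nhds hV
      obtain ⟨A, hA, hAV⟩ := hy _ hV'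
      exact Filter.mem_map.2 (Filter.mem_of_superset hA fun n hn => hAV n hn)
    have h4 := tendsto_nhds_unique h3 hlim
    exact hS (h4 ▸ y.2)

end Q93.Ultra
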